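import Mathlib

set_option autoImplicit false

open Set Topology Cardinal

namespace Pool.Agent.Results.MP_d81239_gt.DenseSubspace

universe u

/-- Monotonically normal spaces: `T₁`-spaces with an operator `H` assigning to each open set `U`
and each `x ∈ U` an open set `H x U` with `x ∈ H x U ⊆ U`, such that `H x U ∩ H y V ≠ ∅` implies
`x ∈ V` or `y ∈ U`. -/
def MonotonicallyNormal (X : Type u) [TopologicalSpace X] : Prop :=
  T1Space X ∧ ∃ H : X → Set X → Set X,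
    (∀ (x : X) (U : Set X), IsOpen U → x ∈ U → IsOpen (H x U) ∧ x ∈ H x U ∧ H x U ⊆ U) ∧
    ∀ (x : X) (U : Set X) (y : X) (V : Set X), IsOpen U → x ∈ U → IsOpen V → y ∈ V →
      (H x U ∩ H y V).Nonempty → x ∈ V ∨ y ∈ U

/-- The Lindelöf number: the least infinite cardinal `κ` such that every open cover has a subcover
of cardinality at most `κ`. -/
noncomputable def lindelofNumber (Z : Type u) [TopologicalSpace Z] : Cardinal.{u} :=
  sInf {κ : Cardinal.{u} | ℵ₀ ≤ κ ∧ ∀ 𝒰 : Set (Set Z), (∀ U ∈ 𝒰, IsOpen U) → ⋃₀ 𝒰 = Set.univ →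
    ∃ 𝒱 ⊆ 𝒰, #𝒱 ≤ κ ∧ ⋃₀ 𝒱 = Set.univ}

lemma lindelofNumber_mem (Z : Type u) [TopologicalSpace Z] :
    ℵ₀ ≤ lindelofNumber Z ∧ ∀ 𝒰 : Set (Set Z), (∀ U ∈ 𝒰, IsOpen U) → ⋃₀ 𝒰 = Set.univ →
      ∃ 𝒱 ⊆ 𝒰, #𝒱 ≤ lindelofNumber Z ∧ ⋃₀ 𝒱 = Set.univ := by
  have hne : {κ : Cardinal.{u} | ℵ₀ ≤ κ ∧ ∀ 𝒰 : Set (Set Z), (∀ U ∈ 𝒰, IsOpen U) →
      ⋃₀ 𝒰 = Set.univ → ∃ 𝒱 ⊆ 𝒰, #𝒱 ≤ κ ∧ ⋃₀ 𝒱 = Set.univ}.Nonempty :=
    ⟨max ℵ₀ #(Set Z), le_max_left _ _, fun 𝒰 _ h2 =>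
      ⟨𝒰, subset_rfl, (Cardinal.mk_set_le _).trans (le_max_right _ _), h2⟩⟩
  exact csInf_mem hne

theorem main (X : Type u) [TopologicalSpace X] (hX : MonotonicallyNormal X) (Y : Set X)
    (hY : Dense Y) (κ : Cardinal.{u}) (hκ : ℵ₀ ≤ κ)
    (hL : ∀ 𝒰 : Set (Set Y), (∀ U ∈ 𝒰, IsOpen U) → ⋃₀ 𝒰 = Set.univ →
      ∃ 𝒱 ⊆ 𝒰, #𝒱 ≤ κ ∧ ⋃₀ 𝒱 = Set.univ)
    (𝒰 : Set (Set X)) (h𝒰 : ∀ U ∈ 𝒰, IsOpen U) (hcov : ⋃₀ 𝒰 = Set.univ) :
    ∃ 𝒱 ⊆ 𝒰, #𝒱 ≤ κ ∧ ⋃₀ 𝒱 = Set.univ := by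
  classical
  by_contra hcon
  push Not at hcon
  obtain ⟨hT1, H, hH1, hH2⟩ := hX
  have hcl : ∀ (x : X) (U : Set X), IsOpen U → x ∈ U → closure (H x U) ⊆ U := by
    intro x U hU hx z hz
    by_contra hzU
    have hzx : z ∈ ({x}ᶜ : Set X) := fun h => hzU (by rw [mem_singleton_iff.mp h]; exact hx)
    obtain ⟨o1, o2, -⟩ := hH1 z {x}ᶜ isOpen_compl_singleton hzx
    obtain ⟨w, hw1, hw2⟩ := mem_closure_iff.1 hz _ o1 o2
    rcases hH2 x U z {x}ᶜ hU hx isOpen_compl_singleton hzx ⟨w, hw2, hw1⟩ with h | h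
    · exact h rfl
    · exact hzU h
  have hU : ∀ x : X, ∃ U ∈ 𝒰, x ∈ U := fun x => by
    have : x ∈ ⋃₀ 𝒰 := by rw [hcov]; trivial
    exact this
  choose U hU𝒰 hxU using hU
  have hUo : ∀ x, IsOpen (U x) := fun x => h𝒰 _ (hU𝒰 x)
  -- the set `A`
  obtain ⟨A, hA, hYA⟩ : ∃ A : Set X, #A ≤ κ ∧ Y ⊆ ⋃ a ∈ A, H a (U a) := by
    obtain ⟨𝒱, h1, h2, h3⟩ := hL (range fun x : X => (Subtype.val ⁻¹' H x (U x) : Set Y))
      (by
        rintro _ ⟨x, rfl⟩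
        exact (hH1 x (U x) (hUo x) (hxU x)).1.preimage continuous_subtype_val)
      (by
        ext y
        simp only [mem_sUnion, mem_range, exists_exists_eq_and, mem_preimage, Set.mem_univ, iff_true]
        exact ⟨y.1, (hH1 y.1 (U y.1) (hUo y.1) (hxU y.1)).2.1⟩)
    choose f hf using fun V : 𝒱 => h1 V.2
    refine ⟨range f, mk_range_le.trans h2, fun y hy => ?_⟩
    have h4 : (⟨y, hy⟩ : Y) ∈ ⋃₀ 𝒱 := by rw [h3]; trivial
    obtain ⟨V, hV, hyV⟩ := h4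
    refine mem_biUnion (mem_range_self ⟨V, hV⟩) ?_
    have h5 := hf ⟨V, hV⟩
    have h6 : (⟨y, hy⟩ : Y) ∈ (Subtype.val ⁻¹' H (f ⟨V, hV⟩) (U (f ⟨V, hV⟩)) : Set Y) := by
      have h7 : (Subtype.val ⁻¹' H (f ⟨V, hV⟩) (U (f ⟨V, hV⟩)) : Set Y) = V := h5
      rw [h7]; exact hyV
    exact h6
  have hFA : ∀ z, (∀ a ∈ A, z ∉ U a) → z ∈ closure A := by
    intro z hz
    rw [mem_closure_iff]
    intro V hV hzV
    obtain ⟨o1, o2, -⟩ := hH1 z V hV hzV
    obtain ⟨y, hy1, hy2⟩ := hY.inter_open_nonempty _ o1 ⟨z, o2⟩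
    obtain ⟨a, ha, hya⟩ := mem_iUnion₂.mp (hYA hy2)
    rcases hH2 a (U a) z V (hUo a) (hxU a) hV hzV ⟨y, hya, hy1⟩ with h | h
    · exact ⟨a, h, ha⟩
    · exact absurd h (hz a ha)
  -- the right separated family
  let W : Type u := (Order.succ κ).ord.ToType
  have hW : #W = Order.succ κ := mk_ord_toType _
  have hWlt : ∀ a : W, #(Iio a) ≤ κ := by
    intro a
    have := mk_Iio_lt a (by rw [Ordinal.type_toType, hW])
    rw [hW] at this
    exact Order.lt_succ_iff.mp this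
  have hchoice : ∀ (a : W) (f : Iio a → X), ∃ z, (∀ b ∈ A, z ∉ U b) ∧ ∀ b : Iio a, z ∉ U (f b) := by
    intro a f
    have h1 : #(U '' A ∪ range fun b => U (f b) : Set (Set X)) ≤ κ :=
      (mk_union_le _ _).trans ((add_le_add (mk_image_le.trans hA)
        (mk_range_le.trans (hWlt a))).trans (add_eq_self hκ).le)
    have h2 := hcon (U '' A ∪ range fun b => U (f b)) (by
      rintro _ (⟨b, -, rfl⟩ | ⟨b, rfl⟩)
      · exact hU𝒰 _
      · exact hU𝒰 _) h1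
    rw [Ne, eq_univ_iff_forall] at h2
    push Not at h2
    obtain ⟨z, hz⟩ := h2
    refine ⟨z, fun b hb h => hz ⟨U b, Or.inl (mem_image_of_mem _ hb), h⟩,
      fun b h => hz ⟨U (f b), Or.inr ⟨b, rfl⟩, h⟩⟩
  choose pick hpick1 hpick2 using hchoice
  let x : W → X := WellFounded.fix (r := (· < ·)) wellFounded_lt
    (fun a f => pick a fun b => f b.1 b.2)
  have hx : ∀ a, x a = pick a fun b => x b.1 := fun a =>
    WellFounded.fix_eq wellFounded_lt (fun a (f : ∀ b : W, b < a → X) => pick a fun b => f b.1 b.2) a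
  have hxA : ∀ a, ∀ b ∈ A, x a ∉ U b := fun a b hb => by
    rw [hx a]; exact hpick1 a _ b hb
  have hxx : ∀ a b, b < a → x a ∉ U (x b) := fun a b hab => by
    rw [hx a]; exact hpick2 a (fun b => x b.1) ⟨b, hab⟩
  have hxcl : ∀ a, x a ∈ closure A := fun a => hFA _ (hxA a)
  -- the smaller neighbourhoods
  let O : W → Set X := fun a => H (x a) (U (x a))
  have hO : ∀ a, IsOpen (O a) ∧ x a ∈ O a ∧ O a ⊆ U (x a) := fun a =>
    hH1 _ _ (hUo _) (hxU _)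
  have hOcl : ∀ a, closure (O a) ⊆ U (x a) := fun a => hcl _ _ (hUo _) (hxU _)
  have hpt : ∀ a : W, ∃ p ∈ A, p ∈ H (x a) (O a) := by
    intro a
    obtain ⟨o1, o2, -⟩ := hH1 (x a) (O a) (hO a).1 (hO a).2.1
    obtain ⟨p, hp1, hp2⟩ := mem_closure_iff.1 (hxcl a) _ o1 o2
    exact ⟨p, hp2, hp1⟩
  choose p hpA hp using hpt
  -- a large set with the same point
  obtain ⟨q, hq⟩ : ∃ q ∈ A, ¬ #{a : W | p a = q} ≤ κ := by
    by_contra hcon2
    push Not at hcon2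
    have h1 : (Set.univ : Set W) = ⋃ q : A, {a : W | p a = q.1} := by
      ext a
      simp only [Set.mem_univ, mem_iUnion, true_iff]
      exact ⟨⟨p a, hpA a⟩, rfl⟩
    have h2 : #W ≤ κ := by
      rw [← Cardinal.mk_univ, h1]
      refine (mk_iUnion_le _).trans ?_
      refine (mul_le_mul' hA (ciSup_le' fun q : A => hcon2 q.1 q.2)).trans ?_
      exact (mul_eq_self hκ).le
    rw [hW] at h2
    exact absurd (Order.lt_succ κ) (not_lt.mpr h2)
  let R : Set W := {a : W | p a = q}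
  have hRO : ∀ a ∈ R, ∀ b ∈ R, a < b → x a ∈ O b := by
    intro a ha b hb hab
    have h1 : q ∈ H (x a) (O a) := by
      have := hp a
      rwa [show p a = q from ha] at this
    have h2 : q ∈ H (x b) (O b) := by
      have := hp b
      rwa [show p b = q from hb] at this
    rcases hH2 _ _ _ _ (hO a).1 (hO a).2.1 (hO b).1 (hO b).2.1 ⟨q, h1, h2⟩ with h | h
    · exact h
    · exact absurd ((hO a).2.2 h) (hxx b a hab)
  -- the successors in `R`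
  let R' : Set W := {c | c ∈ R ∧ ∃ b ∈ R, b < c ∧ ∀ a ∈ R, a < c → a ≤ b}
  have hR' : ¬ #R' ≤ κ := by
    intro hle
    apply hq.2
    -- nonmaximal elements have successors
    have hs : ∀ b : {b : W | b ∈ R ∧ ∃ c ∈ R, b < c}, ∃ c : R', b.1 < c.1 ∧
        ∀ d ∈ R, b.1 < d → c.1 ≤ d := by
      rintro ⟨b, hb, hbc⟩
      have hne : {c | c ∈ R ∧ b < c}.Nonempty := hbc
      let c := wellFounded_lt.min {c | c ∈ R ∧ b < c} hne
      have hc : c ∈ {c | c ∈ R ∧ b < c} := wellFounded_lt.min_mem _ hne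
      have hmin : ∀ d ∈ R, b < d → c ≤ d := fun d hd hbd =>
        not_lt.mp (wellFounded_lt.not_lt_min _ (show d ∈ {c | c ∈ R ∧ b < c} from ⟨hd, hbd⟩))
      refine ⟨⟨c, hc.1, b, hb, hc.2, fun a ha hac => ?_⟩, hc.2, hmin⟩
      by_contra hab
      exact absurd hac (not_lt.mpr (hmin a ha (not_le.mp hab)))
    choose s hs1 hs2 using hs
    have hinj : Function.Injective s := by
      intro a b hab
      by_contra hne
      rcases lt_or_gt_of_ne (fun h => hne (Subtype.ext h) : a.1 ≠ b.1) with h | h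
      · have h1 := hs2 a b.1 b.2.1 h
        rw [hab] at h1
        exact absurd (hs1 b) (not_lt.mpr h1)
      · have h1 := hs2 b a.1 a.2.1 h
        rw [← hab] at h1
        exact absurd (hs1 a) (not_lt.mpr h1)
    have h1 : #{b : W | b ∈ R ∧ ∃ c ∈ R, b < c} ≤ κ := (mk_le_of_injective hinj).trans hle
    have h2 : R ⊆ {b : W | b ∈ R ∧ ∃ c ∈ R, b < c} ∪ {b : W | b ∈ R ∧ ∀ c ∈ R, c ≤ b} := by
      intro b hb
      by_cases h : ∃ c ∈ R, b < c
      · exact Or.inl ⟨hb, h⟩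
      · push Not at h
        exact Or.inr ⟨hb, h⟩
    have h3 : #{b : W | b ∈ R ∧ ∀ c ∈ R, c ≤ b} ≤ κ := by
      have : Subsingleton {b : W | b ∈ R ∧ ∀ c ∈ R, c ≤ b} :=
        ⟨fun a b => Subtype.ext (le_antisymm (b.2.2 a.1 a.2.1) (a.2.2 b.1 b.2.1))⟩
      exact (le_one_iff_subsingleton.mpr this).trans (one_le_aleph0.trans hκ)
    calc #R ≤ _ := mk_le_mk_of_subset h2
      _ ≤ _ := mk_union_le _ _
      _ ≤ κ + κ := add_le_add h1 h3
      _ = κ := add_eq_self hκ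
  -- disjoint neighbourhoods
  have hV : ∀ c : R', ∃ V : Set X, IsOpen V ∧ x c.1 ∈ V ∧ ∀ a ∈ R, a ≠ c.1 → x a ∉ V := by
    rintro ⟨c, hc, b, hb, hbc, hmax⟩
    refine ⟨U (x c) ∩ (closure (O b))ᶜ, (hUo _).inter isClosed_closure.isOpen_compl,
      ⟨hxU _, fun h => hxx c b hbc (hOcl b h)⟩, fun a ha hac h => ?_⟩
    rcases lt_or_gt_of_ne hac with h1 | h1
    · have h2 := hmax a ha h1
      refine h.2 (subset_closure ?_)
      rcases h2.lt_or_eq with h3 | h3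
      · exact hRO a ha b hb h3
      · rw [h3]; exact (hO b).2.1
    · exact hxx a c h1 h.1
  choose V hVo hxV hVd using hV
  have hmeet : ∀ c : R', ∃ z ∈ A, z ∈ H (x c.1) (V c) := by
    intro c
    obtain ⟨o1, o2, -⟩ := hH1 (x c.1) (V c) (hVo c) (hxV c)
    obtain ⟨z, hz1, hz2⟩ := mem_closure_iff.1 (hxcl c.1) _ o1 o2
    exact ⟨z, hz2, hz1⟩
  choose z hzA hz using hmeet
  apply hR'
  have hinj : Function.Injective fun c : R' => (⟨z c, hzA c⟩ : A) := by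
    intro c d hcd
    by_contra hne
    have h1 : z c = z d := congrArg Subtype.val hcd
    have hne' : c.1 ≠ d.1 := fun h => hne (Subtype.ext h)
    have h2 : z c ∈ H (x d.1) (V d) := by rw [h1]; exact hz d
    rcases hH2 _ _ _ _ (hVo c) (hxV c) (hVo d) (hxV d) ⟨z c, hz c, h2⟩ with h | h
    · exact hVd d c.1 c.2.1 hne' h
    · exact hVd c d.1 d.2.1 hne'.symm h
  exact (mk_le_of_injective hinj).trans hA

/-- **Answer to Question 1 (affirmative).** If `X` is a monotonically normal space and `Y` is a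
dense subspace of `X`, then `l(X) ≤ l(Y)`. -/
theorem result (X : Type u) [TopologicalSpace X] (hX : MonotonicallyNormal X) (Y : Set X)
    (hY : Dense Y) : lindelofNumber X ≤ lindelofNumber Y := by
  obtain ⟨h1, h2⟩ := lindelofNumber_mem Y
  exact csInf_le' ⟨h1, fun 𝒰 h3 h4 => main X hX Y hY _ h1 h2 𝒰 h3 h4⟩

end Pool.Agent.Results.MP_d81239_gt.DenseSubspace
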